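import Mathlib

/-!
# Steiner systems: the divisibility conditions in terms of rising products
-/

set_option autoImplicit false
open Finset Polynomial

namespace Pool.Agent.H108.St

/-- The divisibility conditions in terms of `K = q - r + 1`, `N = n - r + 1`:
`K (K+1) ⋯ (K+j-1)` divides `N (N+1) ⋯ (N+j-1)` for all `j ≤ r`. -/
def Dv (r K N : ℕ) : Prop :=
  ∀ j ≤ r, (∏ l ∈ range j, (K + l)) ∣ ∏ l ∈ range j, (N + l)

theorem Dv.mono {r s K N : ℕ} (h : Dv s K N) (hrs : r ≤ s) : Dv r K N :=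
  fun j hj => h j (hj.trans hrs)

/-- The condition (D) gives `Dv`. -/
theorem dv_of_divCond {n q r : ℕ} (hrq : r ≤ q) (hqn : q ≤ n)
    (h : ∀ i < r, (q - i).choose (r - i) ∣ (n - i).choose (r - i)) :
    Dv r (q - r + 1) (n - r + 1) := by
  intro j hj
  rcases Nat.eq_zero_or_pos j with h0 | h0
  · subst h0; simp
  have h1 := h (r - j) (by omega)
  rw [show r - (r - j) = j by omega, show q - (r - j) = (q - r) + j by omega,
    show n - (r - j) = (n - r) + j by omega] at h1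
  rw [← Nat.ascFactorial_eq_prod_range, ← Nat.ascFactorial_eq_prod_range,
    Nat.ascFactorial_eq_factorial_mul_choose, Nat.ascFactorial_eq_factorial_mul_choose]
  exact Nat.mul_dvd_mul_left _ h1

theorem dvd_prod_gcd {ι : Type*} (s : Finset ι) (m : ℕ) (x : ι → ℕ) :
    Nat.gcd m (∏ i ∈ s, x i) ∣ ∏ i ∈ s, Nat.gcd m (x i) := by
  classical
  induction s using Finset.induction_on with
  | empty => simp
  | insert a s ha ih =>
    rw [prod_insert ha, prod_insert ha]
    exact (Nat.gcd_mul_right_dvd_mul_gcd m (x a) (∏ i ∈ s, x i)).trans (Nat.mul_dvd_mul_left _ ih)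

/-- The column lemma. -/
theorem Dv.col {r K N l : ℕ} (h : Dv r K N) (hl : l < r) :
    K + l ∣ ∏ i ∈ range (l + 1), Nat.gcd (K + l) (N + i) := by
  have h1 : K + l ∣ ∏ i ∈ range (l + 1), (N + i) :=
    (dvd_prod_of_mem (fun l => K + l) (mem_range.2 (Nat.lt_succ_self l))).trans (h (l + 1) (by omega))
  have h2 := dvd_prod_gcd (range (l + 1)) (K + l) (fun i => N + i)
  rwa [Nat.gcd_eq_left h1] at h2

/-- Congruences for the values of a polynomial in two variables. -/
theorem evalEval_congr (F : ℤ[X][X]) (m x y x' y' : ℤ) (hx : m ∣ x - x') (hy : m ∣ y - y') :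
    m ∣ F.evalEval x y - F.evalEval x' y' := by
  have h1 : m ∣ eval x (eval (C y) F) - eval x' (eval (C y) F) :=
    hx.trans (sub_dvd_eval_sub x x' _)
  have h2 : m ∣ eval x' (eval (C y) F) - eval x' (eval (C y') F) := by
    obtain ⟨G, hG⟩ := sub_dvd_eval_sub (C y) (C y') F
    rw [← eval_sub, hG, eval_mul, eval_sub, eval_C, eval_C]
    exact Dvd.dvd.mul_right hy _
  have h3 := dvd_add h1 h2
  rw [sub_add_sub_cancel] at h3
  exact h3

/-- `F` has no zeros `(-K, -N)` with `K < N`, `K` large, which satisfy the first divisibility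
conditions. -/
def Good (F : ℤ[X][X]) : Prop :=
  ∃ r K₀ : ℕ, ∀ K N : ℕ, K₀ ≤ K → K < N → Dv r K N → F.evalEval (-(K : ℤ)) (-(N : ℤ)) ≠ 0

/-- If some column contains no zero of `F`. -/
theorem good_of_col (F : ℤ[X][X]) (l : ℕ)
    (h : ∀ i ≤ l, F.evalEval (l : ℤ) (i : ℤ) ≠ 0) : Good F := by
  refine ⟨l + 1, (∏ i ∈ range (l + 1), (F.evalEval (l : ℤ) (i : ℤ)).natAbs) + 1, ?_⟩
  intro K N hK hKN hD hF
  have h1 := hD.col (Nat.lt_succ_self l)
  have h2 : ∏ i ∈ range (l + 1), Nat.gcd (K + l) (N + i) ∣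
      ∏ i ∈ range (l + 1), (F.evalEval (l : ℤ) (i : ℤ)).natAbs := by
    apply prod_dvd_prod_of_dvd
    intro i _
    have h3 : ((Nat.gcd (K + l) (N + i) : ℕ) : ℤ) ∣
        F.evalEval (l : ℤ) (i : ℤ) - F.evalEval (-(K : ℤ)) (-(N : ℤ)) := by
      apply evalEval_congr
      · have : ((Nat.gcd (K + l) (N + i) : ℕ) : ℤ) ∣ ((K + l : ℕ) : ℤ) :=
          Int.natCast_dvd_natCast.2 (Nat.gcd_dvd_left _ _)
        have e : (l : ℤ) - -(K : ℤ) = ((K + l : ℕ) : ℤ) := by push_cast; ring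
        rw [e]; exact this
      · have : ((Nat.gcd (K + l) (N + i) : ℕ) : ℤ) ∣ ((N + i : ℕ) : ℤ) :=
          Int.natCast_dvd_natCast.2 (Nat.gcd_dvd_right _ _)
        have e : (i : ℤ) - -(N : ℤ) = ((N + i : ℕ) : ℤ) := by push_cast; ring
        rw [e]; exact this
    rw [hF, sub_zero] at h3
    exact Int.natCast_dvd.1 h3
  have h3 : 0 < ∏ i ∈ range (l + 1), (F.evalEval (l : ℤ) (i : ℤ)).natAbs := by
    apply prod_pos
    intro i hi
    exact Int.natAbs_pos.2 (h i (Nat.lt_succ_iff.1 (mem_range.1 hi)))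
  have h4 := Nat.le_of_dvd h3 (h1.trans h2)
  omega

end Pool.Agent.H108.St
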