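import Pool.Agent.H108.St.Basic

/-!
# Rational functions with bounded integral values
-/

set_option autoImplicit false
open Finset Polynomial Filter

namespace Pool.Agent.H108.St

theorem eventually_eval_ne (a : ℤ[X]) (ha : a ≠ 0) : ∃ L : ℕ, ∀ x : ℤ, (L : ℤ) ≤ |x| → a.eval x ≠ 0 := by
  refine ⟨(∑ x ∈ a.roots.toFinset, x.natAbs) + 1, ?_⟩
  intro x hx h0
  have h1 : x ∈ a.roots.toFinset := by
    rw [Multiset.mem_toFinset, mem_roots ha]; exact h0
  have h2 : x.natAbs ≤ ∑ x ∈ a.roots.toFinset, x.natAbs :=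
    Finset.single_le_sum (f := fun x : ℤ => x.natAbs) (fun _ _ => Nat.zero_le _) h1
  have h3 : |x| = (x.natAbs : ℤ) := Int.abs_eq_natAbs x
  rw [h3] at hx
  have h4 : (∑ x ∈ a.roots.toFinset, x.natAbs) + 1 ≤ x.natAbs := by exact_mod_cast hx
  omega

theorem linear_of_int (a h : ℤ[X]) (ha : a ≠ 0)
    (H : ∀ l : ℕ, ∃ i : ℕ, i ≤ l ∧ h.eval (l : ℤ) = a.eval (l : ℤ) * i) :
    ∃ u v : ℤ, u ≤ 1 ∧ h = (C u * X + C v) * a := by
  classical
  choose i hi hia using H
  obtain ⟨L0, hL0⟩ := eventually_eval_ne a ha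
  set a' : ℝ[X] := a.map (Int.castRingHom ℝ) with ha'
  set h' : ℝ[X] := h.map (Int.castRingHom ℝ) with hh'
  have ha0 : a' ≠ 0 := by
    rw [ha', Ne, Polynomial.map_eq_zero_iff (RingHom.injective_int _)]; exact ha
  have eva : ∀ l : ℕ, a'.eval (l : ℝ) = ((a.eval (l : ℤ) : ℤ) : ℝ) := by
    intro l
    have := Polynomial.eval_intCast_map (Int.castRingHom ℝ) a (l : ℤ)
    rw [Int.cast_natCast] at this
    rw [ha', this]; rfl
  have evh : ∀ l : ℕ, h'.eval (l : ℝ) = ((h.eval (l : ℤ) : ℤ) : ℝ) := by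
    intro l
    have := Polynomial.eval_intCast_map (Int.castRingHom ℝ) h (l : ℤ)
    rw [Int.cast_natCast] at this
    rw [hh', this]; rfl
  set q := h' / a' with hq
  set ρ := h' % a' with hρ
  have hdiv : a' * q + ρ = h' := EuclideanDomain.div_add_mod h' a'
  have hdeg : ρ.degree < a'.degree := EuclideanDomain.mod_lt h' ha0
  have T1 : Tendsto (fun l : ℕ => ρ.eval (l : ℝ) / a'.eval (l : ℝ)) atTop (nhds 0) :=
    (Polynomial.div_tendsto_atTop_zero_of_degree_lt ρ a' hdeg).comp tendsto_natCast_atTop_atTop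
  have key : ∀ l : ℕ, L0 ≤ l → (i l : ℝ) - q.eval (l : ℝ) = ρ.eval (l : ℝ) / a'.eval (l : ℝ) := by
    intro l hl
    have h1 : a'.eval (l : ℝ) ≠ 0 := by
      rw [eva]
      have := hL0 (l : ℤ) (by rw [abs_of_nonneg (by positivity)]; exact_mod_cast hl)
      exact_mod_cast this
    have h2 : a'.eval (l : ℝ) * q.eval (l : ℝ) + ρ.eval (l : ℝ) = a'.eval (l : ℝ) * (i l : ℝ) := by
      rw [← eval_mul, ← eval_add, hdiv, evh, hia, eva]
      push_cast; ring
    rw [eq_div_iff h1]
    linarith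
  have T2 : Tendsto (fun l : ℕ => (i l : ℝ) - q.eval (l : ℝ)) atTop (nhds 0) := by
    refine T1.congr' ?_
    filter_upwards [eventually_ge_atTop L0] with l hl
    exact (key l hl).symm
  have hqd : q.natDegree ≤ 1 := by
    by_contra hcon
    push Not at hcon
    set n := q.natDegree with hn
    have hq0 : q ≠ 0 := by
      intro h0; rw [h0, natDegree_zero] at hn; omega
    have T3 : Tendsto (fun l : ℕ => q.eval (l : ℝ) / (X ^ n : ℝ[X]).eval (l : ℝ)) atTop
        (nhds (q.leadingCoeff / (X ^ n : ℝ[X]).leadingCoeff)) :=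
      (Polynomial.div_tendsto_atTop_leadingCoeff_div_of_degree_eq q (X ^ n) (by
        rw [degree_X_pow, degree_eq_natDegree hq0])).comp tendsto_natCast_atTop_atTop
    have T4 : Tendsto (fun l : ℕ => q.eval (l : ℝ) / (X ^ n : ℝ[X]).eval (l : ℝ)) atTop (nhds 0) := by
      have T5 : Tendsto (fun l : ℕ => ((1 : ℝ) / l)) atTop (nhds 0) := tendsto_one_div_atTop_nhds_zero_nat
      have T6 : Tendsto (fun l : ℕ => (i l : ℝ) / (l : ℝ) ^ n) atTop (nhds 0) := by
        refine squeeze_zero' (Eventually.of_forall fun l => by positivity) ?_ T5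
        filter_upwards [eventually_ge_atTop 1] with l hl
        have hl' : (1 : ℝ) ≤ l := by exact_mod_cast hl
        rw [div_le_div_iff₀ (by positivity) (by positivity)]
        have h1 : (i l : ℝ) ≤ l := by exact_mod_cast hi l
        have h2 : (l : ℝ) ^ 2 ≤ (l : ℝ) ^ n := pow_le_pow_right₀ hl' hcon
        nlinarith
      have T7 : Tendsto (fun l : ℕ => ((i l : ℝ) - q.eval (l : ℝ)) / (l : ℝ) ^ n) atTop (nhds 0) := by
        have h1 : Tendsto (fun l : ℕ => |(i l : ℝ) - q.eval (l : ℝ)|) atTop (nhds 0) := by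
          simpa using T2.abs
        rw [tendsto_zero_iff_abs_tendsto_zero]
        refine squeeze_zero' (Eventually.of_forall fun l => abs_nonneg _) ?_ h1
        filter_upwards [eventually_ge_atTop 1] with l hl
        have hl' : (1 : ℝ) ≤ l := by exact_mod_cast hl
        simp only [Function.comp]
        rw [abs_div, abs_of_nonneg (by positivity : (0 : ℝ) ≤ (l : ℝ) ^ n)]
        exact div_le_self (abs_nonneg _) (one_le_pow₀ hl')
      have T8 := T6.sub T7
      rw [sub_zero] at T8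
      refine T8.congr fun l => ?_
      simp only [eval_pow, eval_X]
      ring
    have := tendsto_nhds_unique T3 T4
    rw [leadingCoeff_X_pow, div_one, leadingCoeff_eq_zero] at this
    exact hq0 this
  obtain ⟨α, β, hαβ⟩ : ∃ α β : ℝ, q = C α * X + C β :=
    ⟨_, _, Polynomial.eq_X_add_C_of_natDegree_le_one hqd⟩
  have T3 : Tendsto (fun l : ℕ => ((i (l + 1) : ℝ) - i l)) atTop (nhds α) := by
    have h1 := ((tendsto_add_atTop_iff_nat 1).2 T2).sub T2
    have h2 := h1.add_const α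
    simp only [sub_zero, zero_add] at h2
    refine h2.congr fun l => ?_
    rw [hαβ]
    simp only [eval_add, eval_mul, eval_C, eval_X]
    push_cast; ring
  obtain ⟨L1, hL1⟩ : ∃ L : ℕ, ∀ l ≥ L, |((i (l + 1) : ℝ) - i l) - α| < 1 / 2 := by
    have := Metric.tendsto_atTop.1 T3 (1 / 2) (by norm_num)
    simp only [Real.dist_eq] at this
    exact this
  set u : ℤ := (i (L1 + 1) : ℤ) - i L1 with hu
  have step : ∀ l ≥ L1, (i (l + 1) : ℤ) - i l = u := by
    intro l hl
    have h1 := hL1 l hl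
    have h2 := hL1 L1 le_rfl
    have h3 : |(((i (l + 1) : ℤ) - i l - u : ℤ) : ℝ)| < 1 := by
      rw [hu]; push_cast
      have h4 := abs_sub_lt_iff.1 h1
      have h5 := abs_sub_lt_iff.1 h2
      rw [abs_lt]
      constructor <;> linarith [h4.1, h4.2, h5.1, h5.2]
    have h4 : |(i (l + 1) : ℤ) - i l - u| < 1 := by exact_mod_cast h3
    have h5 := Int.abs_lt_one_iff.1 h4
    linarith
  have aff : ∀ k : ℕ, (i (L1 + k) : ℤ) = i L1 + u * k := by
    intro k
    induction k with
    | zero => simp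
    | succ k ih =>
      have := step (L1 + k) (by omega)
      rw [show L1 + (k + 1) = L1 + k + 1 by omega]
      push_cast
      linarith
  set v : ℤ := (i L1 : ℤ) - u * L1 with hv
  have aff2 : ∀ l : ℕ, L1 ≤ l → (i l : ℤ) = u * l + v := by
    intro l hl
    obtain ⟨k, rfl⟩ := Nat.exists_eq_add_of_le hl
    rw [aff k, hv]; push_cast; ring
  have hu1 : u ≤ 1 := by
    by_contra hcon
    push Not at hcon
    have h1 := aff2 (L1 + v.natAbs + 1) (by omega)
    have h2 : (i (L1 + v.natAbs + 1) : ℤ) ≤ (L1 + v.natAbs + 1 : ℕ) := by exact_mod_cast hi _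
    rw [h1] at h2
    push_cast at h2
    have h3 : -|v| ≤ v := neg_abs_le v
    have h4 : (0 : ℤ) ≤ L1 := by positivity
    have h5 := abs_nonneg v
    nlinarith
  refine ⟨u, v, hu1, ?_⟩
  apply Polynomial.eq_of_infinite_eval_eq
  refine Set.Infinite.mono (s := (fun l : ℕ => (l : ℤ)) '' Set.Ici L1) ?_ ?_
  · rintro x ⟨l, hl, rfl⟩
    show h.eval (l : ℤ) = ((C u * X + C v) * a).eval (l : ℤ)
    rw [hia, aff2 l hl]
    simp only [eval_mul, eval_add, eval_C, eval_X]
    ring
  · exact (Set.Ici_infinite L1).image (fun x _ y _ h => by exact_mod_cast h)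

/-- Polynomials of degree one in the second variable. -/
theorem good_linear (c g : ℤ[X]) (hc : c ≠ 0) : Good (C c * X - C g) := by
  by_cases hA : ∃ l : ℕ, ∀ i : ℕ, i ≤ l → (C c * X - C g : ℤ[X][X]).evalEval (l : ℤ) (i : ℤ) ≠ 0
  · obtain ⟨l, hl⟩ := hA
    exact good_of_col _ l hl
  push Not at hA
  have ev : ∀ x y : ℤ, (C c * X - C g : ℤ[X][X]).evalEval x y = c.eval x * y - g.eval x := by
    intro x y
    simp [evalEval]
  obtain ⟨u, v, hu, hg⟩ := linear_of_int c g hc (by
    intro l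
    obtain ⟨i, hi, h0⟩ := hA l
    rw [ev] at h0
    exact ⟨i, hi, by linarith⟩)
  obtain ⟨L, hL⟩ := eventually_eval_ne c hc
  refine ⟨1, L + v.natAbs + 1, ?_⟩
  intro K N hK hKN hD h0
  rw [ev, hg] at h0
  simp only [eval_mul, eval_add, eval_C, eval_X] at h0
  have hc0 : c.eval (-(K : ℤ)) ≠ 0 := by
    apply hL
    rw [abs_neg, abs_of_nonneg (by positivity)]
    exact_mod_cast (by omega : L ≤ K)
  have h1 : (N : ℤ) = u * K - v := by
    have h2 : c.eval (-(K : ℤ)) * ((N : ℤ) - (u * K - v)) = 0 := by linarith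
    rcases mul_eq_zero.1 h2 with h3 | h3
    · exact absurd h3 hc0
    · linarith
  have h2 : K ∣ N := by
    have := hD 1 le_rfl
    simpa using this
  have h3 : (K : ℤ) ∣ v := by
    have h4 : (K : ℤ) ∣ (N : ℤ) := Int.natCast_dvd_natCast.2 h2
    have h5 : v = u * K - N := by linarith
    rw [h5]
    exact dvd_sub (dvd_mul_left _ _) h4
  have h4 : v = 0 := by
    apply Int.eq_zero_of_abs_lt_dvd h3
    have : |v| = (v.natAbs : ℤ) := Int.abs_eq_natAbs v
    rw [this]
    exact_mod_cast (by omega : v.natAbs < K)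
  rw [h4, sub_zero] at h1
  have h5 : (N : ℤ) ≤ K := by
    rw [h1]
    have : (0 : ℤ) ≤ K := by positivity
    nlinarith
  have : (K : ℤ) < N := by exact_mod_cast hKN
  linarith

end Pool.Agent.H108.St
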