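import Pool.Agent.H108.St.Lin
import Pool.Graph.R_seed8.H391R2.HitOne

/-!
# No polynomial in two variables vanishes at large solutions of the divisibility conditions
-/

set_option autoImplicit false
open Finset Polynomial

namespace Pool.Agent.H108.St

theorem evalEval_intNorm (F : ℤ[X][X]) (x y : ℤ) :
    F.integralNormalization.evalEval x (F.leadingCoeff.eval x * y) * F.leadingCoeff.eval x =
      F.leadingCoeff.eval x ^ F.natDegree * F.evalEval x y := by
  have h1 := scaleRoots_eval₂_mul (p := F) (evalRingHom x) y F.leadingCoeff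
  rw [← integralNormalization_mul_C_leadingCoeff, eval₂_mul, eval₂_C] at h1
  simp only [eval₂_evalRingHom, coe_evalRingHom] at h1
  exact h1

theorem good_of_ne_zero (F : ℤ[X][X]) (hF : F ≠ 0) : Good F := by
  obtain ⟨n, hn⟩ : ∃ n, F.natDegree = n := ⟨_, rfl⟩
  induction n generalizing F with
  | zero =>
    obtain ⟨c, rfl⟩ : ∃ c : ℤ[X], F = C c := ⟨_, eq_C_of_natDegree_eq_zero hn⟩
    have hc : c ≠ 0 := by rintro rfl; simp at hF
    obtain ⟨L, hL⟩ := eventually_eval_ne c hc
    refine ⟨0, L, fun K N hK _ _ => ?_⟩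
    have : (C c : ℤ[X][X]).evalEval (-(K : ℤ)) (-(N : ℤ)) = c.eval (-(K : ℤ)) := by
      simp [evalEval]
    rw [this]
    apply hL
    rw [abs_neg, abs_of_nonneg (by positivity)]
    exact_mod_cast hK
  | succ n ih =>
    by_cases hA : ∃ l : ℕ, ∀ i : ℕ, i ≤ l → F.evalEval (l : ℤ) (i : ℤ) ≠ 0
    · obtain ⟨l, hl⟩ := hA
      exact good_of_col _ l hl
    push Not at hA
    set c := F.leadingCoeff with hc
    have hc0 : c ≠ 0 := leadingCoeff_ne_zero.2 hF
    set f := F.integralNormalization with hf
    have hfm : f.Monic := monic_integralNormalization hF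
    obtain ⟨L, hL⟩ := eventually_eval_ne c hc0
    have ev := evalEval_intNorm F
    rw [← hf, ← hc] at ev
    obtain ⟨g, hg⟩ : ∃ g : ℤ[X], f.eval g = 0 := by
      by_contra hcon
      push Not at hcon
      obtain ⟨t, ht, hx⟩ := Pool.Agent.H391R2.hit_int f hfm hcon L
      obtain ⟨i, hi, h0⟩ := hA t.toNat
      have ht' : ((t.toNat : ℕ) : ℤ) = t := Int.toNat_of_nonneg (by omega)
      rw [ht'] at h0
      have h1 := ev t i
      rw [h0, mul_zero] at h1
      have h2 : c.eval t ≠ 0 := hL t (by rw [abs_of_nonneg (by omega)]; exact ht.le)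
      rcases mul_eq_zero.1 h1 with h3 | h3
      · exact hx _ h3
      · exact h2 h3
    obtain ⟨f1, hf1⟩ : X - C g ∣ f := dvd_iff_isRoot.2 hg
    have hf10 : f1 ≠ 0 := by
      rintro rfl
      rw [mul_zero] at hf1
      exact hfm.ne_zero hf1
    have hfd : f.natDegree = F.natDegree := natDegree_integralNormalization
    have hf1d : f1.natDegree = n := by
      have h1 := congrArg natDegree hf1
      rw [natDegree_mul (X_sub_C_ne_zero g) hf10, natDegree_X_sub_C, hfd, hn] at h1
      omega
    set F1 := f1.comp (C c * X) with hF1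
    have hF10 : F1 ≠ 0 := by
      rw [hF1, Ne, comp_C_mul_X_eq_zero_iff (mem_nonZeroDivisors_of_ne_zero hc0)]
      exact hf10
    have hF1d : F1.natDegree = n := by
      rw [hF1, natDegree_comp, natDegree_C_mul_X c hc0, mul_one, hf1d]
    obtain ⟨r1, K1, h1⟩ := ih F1 hF10 hF1d
    obtain ⟨r2, K2, h2⟩ := good_linear c g hc0
    refine ⟨r1 + r2, L + K1 + K2, ?_⟩
    intro K N hK hKN hD h0
    have h3 := ev (-(K : ℤ)) (-(N : ℤ))
    rw [h0, mul_zero] at h3
    have hcK : c.eval (-(K : ℤ)) ≠ 0 := by
      apply hL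
      rw [abs_neg, abs_of_nonneg (by positivity)]
      exact_mod_cast (by omega : L ≤ K)
    have h4 : f.evalEval (-(K : ℤ)) (c.eval (-(K : ℤ)) * -(N : ℤ)) = 0 :=
      (mul_eq_zero.1 h3).resolve_right hcK
    rw [hf1, evalEval_mul] at h4
    rcases mul_eq_zero.1 h4 with h5 | h5
    · apply h2 K N (by omega) hKN (hD.mono (by omega))
      rw [← h5]
      simp [evalEval]
    · apply h1 K N (by omega) hKN (hD.mono (by omega))
      rw [← h5, hF1]
      simp only [evalEval, eval_comp, eval_mul, eval_C, eval_X]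
      have e1 : ∀ (p : ℤ[X][X]) (x : ℤ) (a b : ℤ[X]), a.eval x = b.eval x →
          (p.eval a).eval x = (p.eval b).eval x := by
        intro p x a b hab
        obtain ⟨w, hw⟩ := sub_dvd_eval_sub a b p
        have := congrArg (eval x) hw
        rw [eval_sub, eval_mul, eval_sub, hab, sub_self, zero_mul] at this
        linarith
      apply e1
      simp

end Pool.Agent.H108.St
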