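import Pool.Agent.H108.St.Num
import Pool.Agent.H108.St.Zero

/-!
# The divisibility conditions of bounded strength have no small solutions
-/

set_option autoImplicit false
open Finset Polynomial

namespace Pool.Agent.H108.St

/-- The points `(l, i)`, `i ≤ l < R`. -/
abbrev Pt (R : ℕ) := Σ l : Fin R, Fin ((l : ℕ) + 1)

/-- The common divisors. -/
def dd (K N : ℕ) {R : ℕ} (j : Pt R) : ℕ := Nat.gcd (K + (j.1 : ℕ)) (N + (j.2 : ℕ))

theorem gcd_dd (K N R : ℕ) (j j' : Pt R) (h : j ≠ j') :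
    Nat.gcd (dd K N j) (dd K N j') ∣ R.factorial := by
  have key : ∀ a b M : ℕ, a < R → b < R → a ≠ b → ∀ g : ℕ, g ∣ M + a → g ∣ M + b →
      g ∣ R.factorial := by
    intro a b M ha hb hab g h1 h2
    wlog hlt : a < b generalizing a b
    · exact this b a hb ha (Ne.symm hab) h2 h1 (by omega)
    have h3 : g ∣ b - a := by
      have := (Nat.dvd_sub h2 h1)
      rwa [show M + b - (M + a) = b - a by omega] at this
    exact h3.trans (Nat.dvd_factorial (by omega) (by omega))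
  have g1 : Nat.gcd (dd K N j) (dd K N j') ∣ K + (j.1 : ℕ) :=
    (Nat.gcd_dvd_left _ _).trans (Nat.gcd_dvd_left _ _)
  have g2 : Nat.gcd (dd K N j) (dd K N j') ∣ K + (j'.1 : ℕ) :=
    (Nat.gcd_dvd_right _ _).trans (Nat.gcd_dvd_left _ _)
  have g3 : Nat.gcd (dd K N j) (dd K N j') ∣ N + (j.2 : ℕ) :=
    (Nat.gcd_dvd_left _ _).trans (Nat.gcd_dvd_right _ _)
  have g4 : Nat.gcd (dd K N j) (dd K N j') ∣ N + (j'.2 : ℕ) :=
    (Nat.gcd_dvd_right _ _).trans (Nat.gcd_dvd_right _ _)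
  by_cases h1 : (j.1 : ℕ) = j'.1
  · have h2 : (j.2 : ℕ) ≠ j'.2 := by
      intro h2
      apply h
      obtain ⟨⟨a, ha⟩, ⟨b, hb⟩⟩ := j
      obtain ⟨⟨a', ha'⟩, ⟨b', hb'⟩⟩ := j'
      simp only at h1 h2
      subst h1; subst h2
      rfl
    have e1 := j.1.2
    have e2 := j'.1.2
    have e3 := j.2.2
    have e4 := j'.2.2
    exact key _ _ N (by omega) (by omega) h2 _ g3 g4
  · exact key _ _ K j.1.2 j'.1.2 h1 _ g1 g2

theorem gcd_pow_dvd (a b m s t c : ℕ) (hs : s ≤ m) (ht : t ≤ m) (h : Nat.gcd a b ∣ c) :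
    Nat.gcd (a ^ s) (b ^ t) ∣ c ^ m := by
  have h1 : Nat.gcd (a ^ s) (b ^ t) ∣ Nat.gcd (a ^ m) (b ^ m) :=
    Nat.gcd_dvd_gcd_of_dvd_left _ (pow_dvd_pow _ hs) |>.trans
      (Nat.gcd_dvd_gcd_of_dvd_right _ (pow_dvd_pow _ ht))
  rw [Nat.pow_gcd_pow] at h1
  exact h1.trans (pow_dvd_pow_of_dvd h m)

theorem main_arith (A : ℕ) (hA : 1 ≤ A) :
    ∃ r₀ K₀ : ℕ, ∀ K N : ℕ, K₀ ≤ K → K < N → N ≤ K ^ A → ¬ Dv r₀ K N := by
  classical
  obtain ⟨R, hR⟩ : ∃ R : ℕ, 8 * (A : ℝ) ≤ ∑ l ∈ range R, 1 / ((l : ℝ) + 1) := by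
    have := Filter.tendsto_atTop.1 Real.tendsto_sum_range_one_div_nat_succ_atTop (8 * (A : ℝ))
    exact this.exists
  set P := Fintype.card (Pt R) with hP
  set T := 100 * (P + A + 1) with hT
  have hex : ∀ τ : Pt R → Fin (2 * T + 1), ∃ f : Fin (A * deg A (fun j => (τ j : ℕ)) + 1) ×
      Fin (deg A (fun j => (τ j : ℕ)) + 1) → ℤ, f ≠ 0 ∧
      ∀ j : Pt R, ∀ x y d : ℤ, d ∣ x - ((j.1 : ℕ) : ℤ) → d ∣ y - ((j.2 : ℕ) : ℤ) →
        d ^ (τ j : ℕ) ∣ val f x y := by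
    intro τ
    exact exists_aux (fun j : Pt R => ((j.1 : ℕ) : ℤ)) (fun j => ((j.2 : ℕ) : ℤ))
      (fun j => (τ j : ℕ)) _ _ (cond_lt A hA _)
  choose f hf0 hf using hex
  have hgood : ∀ τ : Pt R → Fin (2 * T + 1), Good (pol (f τ)) :=
    fun τ => good_of_ne_zero _ (pol_ne_zero _ (hf0 τ))
  choose r K1 hrK using hgood
  set cc : ℕ := (R.factorial ^ (2 * T)) ^ (P ^ 2) with hcc
  refine ⟨R + ∑ τ, r τ, R + 2 + ∑ τ, K1 τ + ∑ τ, (cc * (∑ e, |f τ e|).toNat) + 1, ?_⟩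
  intro K N hK hKN hNK hD
  have hKR : R + 2 ≤ K := by omega
  have hK1 : 1 < K := by omega
  have hKr : (1 : ℝ) < K := by exact_mod_cast hK1
  have hL : 0 < Real.log K := Real.log_pos hKr
  -- the weights
  set w : Pt R → ℝ := fun j => Real.log (dd K N j) / Real.log K with hw
  have hdpos : ∀ j : Pt R, 0 < dd K N j := fun j => Nat.gcd_pos_of_pos_left _ (by omega)
  have hw0 : ∀ j, 0 ≤ w j := fun j =>
    div_nonneg (Real.log_nonneg (by exact_mod_cast hdpos j)) hL.le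
  have hw2 : ∀ j, w j ≤ 2 := by
    intro j
    simp only [hw]
    rw [div_le_iff₀ hL, show 2 * Real.log K = Real.log ((K : ℝ) ^ 2) by
      rw [Real.log_pow]; push_cast; ring]
    apply Real.log_le_log (by exact_mod_cast hdpos j)
    have h1 : dd K N j ≤ K + (j.1 : ℕ) := Nat.le_of_dvd (by omega) (Nat.gcd_dvd_left _ _)
    have h2 := j.1.2
    have h3 : dd K N j ≤ K ^ 2 := by nlinarith
    exact_mod_cast h3
  have hcol : ∀ l : Fin R, 1 ≤ ∑ i : Fin ((l : ℕ) + 1), w ⟨l, i⟩ := by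
    intro l
    have h1 := hD.col (show (l : ℕ) < R + ∑ τ, r τ by have := l.2; omega)
    have h2 : K ≤ ∏ i ∈ range ((l : ℕ) + 1), Nat.gcd (K + l) (N + i) := by
      refine le_trans (by omega : K ≤ K + l) (Nat.le_of_dvd ?_ h1)
      apply prod_pos
      intro i _
      exact Nat.gcd_pos_of_pos_left _ (by omega)
    rw [← Fin.prod_univ_eq_prod_range (fun i => Nat.gcd (K + l) (N + i))] at h2
    have h3 : Real.log K ≤ ∑ i : Fin ((l : ℕ) + 1), Real.log (dd K N (⟨l, i⟩ : Pt R)) := by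
      rw [← Real.log_prod]
      · apply Real.log_le_log (by linarith)
        have : (K : ℝ) ≤ ((∏ i : Fin ((l : ℕ) + 1), Nat.gcd (K + l) (N + i) : ℕ) : ℝ) := by
          exact_mod_cast h2
        push_cast at this
        exact this
      · intro i _
        have := hdpos (⟨l, i⟩ : Pt R)
        positivity
    simp only [hw]
    rw [← sum_div, le_div_iff₀ hL, one_mul]
    exact h3
  have hW : 8 * (A : ℝ) ≤ ∑ j, w j ^ 2 := by
    refine hR.trans ?_
    rw [← Fin.sum_univ_eq_sum_range (fun l => 1 / ((l : ℝ) + 1)), Fintype.sum_sigma]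
    apply sum_le_sum
    intro l _
    have h1 := sq_sum_le_card_mul_sum_sq (s := (univ : Finset (Fin ((l : ℕ) + 1))))
      (f := fun i => w ⟨l, i⟩)
    rw [card_univ, Fintype.card_fin] at h1
    have h2 := hcol l
    have h3 : (1 : ℝ) ≤ (∑ i : Fin ((l : ℕ) + 1), w ⟨l, i⟩) ^ 2 := one_le_pow₀ h2
    rw [div_le_iff₀ (by positivity)]
    push_cast at h1
    linarith
  have hnum := numeric A P hA le_rfl w hw0 hw2 hW T hT
  -- the multiplicities
  have hfl : ∀ j, ⌊T * w j⌋₊ < 2 * T + 1 := by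
    intro j
    rw [Nat.floor_lt (mul_nonneg (by positivity) (hw0 j))]
    push_cast
    have := hw2 j
    have h1 : (0 : ℝ) ≤ T := by positivity
    nlinarith
  set τ : Pt R → Fin (2 * T + 1) := fun j => ⟨⌊T * w j⌋₊, hfl j⟩ with hτ
  have hτv : (fun j => (τ j : ℕ)) = fun j => ⌊T * w j⌋₊ := rfl
  rw [← hτv] at hnum
  set δ := deg A (fun j => (τ j : ℕ)) with hδ
  -- the value at `(-K, -N)` is not zero
  have hne : val (f τ) (-(K : ℤ)) (-(N : ℤ)) ≠ 0 := by
    rw [← evalEval_pol]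
    apply hrK τ K N _ hKN (hD.mono _)
    · have : K1 τ ≤ ∑ τ, K1 τ := single_le_sum (fun _ _ => Nat.zero_le _) (mem_univ τ)
      omega
    · have : r τ ≤ ∑ τ, r τ := single_le_sum (fun _ _ => Nat.zero_le _) (mem_univ τ)
      omega
  set V := (val (f τ) (-(K : ℤ)) (-(N : ℤ))).natAbs with hV
  have hVpos : 0 < V := Int.natAbs_pos.2 hne
  have hdvd : ∀ j : Pt R, dd K N j ^ (τ j : ℕ) ∣ V := by
    intro j
    have h1 := hf τ j (-(K : ℤ)) (-(N : ℤ)) (dd K N j) (by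
      have : ((dd K N j : ℕ) : ℤ) ∣ ((K + (j.1 : ℕ) : ℕ) : ℤ) :=
        Int.natCast_dvd_natCast.2 (Nat.gcd_dvd_left _ _)
      have e : -(K : ℤ) - ((j.1 : ℕ) : ℤ) = -((K + (j.1 : ℕ) : ℕ) : ℤ) := by push_cast; ring
      rw [e]; exact (dvd_neg).2 this) (by
      have : ((dd K N j : ℕ) : ℤ) ∣ ((N + (j.2 : ℕ) : ℕ) : ℤ) :=
        Int.natCast_dvd_natCast.2 (Nat.gcd_dvd_right _ _)
      have e : -(N : ℤ) - ((j.2 : ℕ) : ℤ) = -((N + (j.2 : ℕ) : ℕ) : ℤ) := by push_cast; ring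
      rw [e]; exact (dvd_neg).2 this)
    rw [← Int.natCast_pow] at h1
    exact Int.natCast_dvd.1 h1
  have hprod := prod_dvd_of_gcd (univ : Finset (Pt R)) (fun j => dd K N j ^ (τ j : ℕ)) V
    (R.factorial ^ (2 * T)) (fun j _ => hdvd j) (by
      intro j _ j' _ hjj'
      apply gcd_pow_dvd _ _ _ _ _ _ _ _ (gcd_dd K N R j j' hjj')
      · have := (τ j).2; omega
      · have := (τ j').2; omega)
  rw [card_univ, ← hP, ← hcc] at hprod
  have hccpos : 0 < cc := by positivity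
  have hle := Nat.le_of_dvd (Nat.mul_pos hVpos hccpos) hprod
  -- the upper bound
  set Cst : ℤ := ∑ e, |f τ e| with hCst
  have hCst0 : 0 ≤ Cst := sum_nonneg fun _ _ => abs_nonneg _
  have hVle : V ≤ Cst.toNat * (K ^ (A * δ) * N ^ δ) := by
    have h1 := abs_val_le (f τ) (-(K : ℤ)) (-(N : ℤ)) (by
      rw [abs_neg, abs_of_nonneg (by positivity)]; exact_mod_cast (by omega : 1 ≤ K)) (by
      rw [abs_neg, abs_of_nonneg (by positivity)]; exact_mod_cast (by omega : 1 ≤ N))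
    rw [abs_neg, abs_neg, Nat.abs_cast, Nat.abs_cast, Int.abs_eq_natAbs, ← hV, ← hCst, ← hδ] at h1
    have h2 : ((Cst.toNat : ℕ) : ℤ) = Cst := Int.toNat_of_nonneg hCst0
    rw [← h2] at h1
    exact_mod_cast h1
  have hNδ : N ^ δ ≤ K ^ (A * δ) := by
    calc N ^ δ ≤ (K ^ A) ^ δ := Nat.pow_le_pow_left hNK δ
      _ = K ^ (A * δ) := (pow_mul _ _ _).symm
  have hccC : cc * Cst.toNat < K := by
    have h1 : cc * (∑ e, |f τ e|).toNat ≤ ∑ τ, (cc * (∑ e, |f τ e|).toNat) :=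
      single_le_sum (f := fun τ => cc * (∑ e, |f τ e|).toNat) (fun _ _ => Nat.zero_le _) (mem_univ τ)
    rw [← hCst] at h1
    omega
  have hfin : ∏ j : Pt R, dd K N j ^ (τ j : ℕ) < K ^ (2 * (A * δ) + 1) := by
    calc ∏ j : Pt R, dd K N j ^ (τ j : ℕ) ≤ V * cc := hle
      _ ≤ Cst.toNat * (K ^ (A * δ) * K ^ (A * δ)) * cc := by
          apply Nat.mul_le_mul_right
          refine hVle.trans ?_
          apply Nat.mul_le_mul_left
          apply Nat.mul_le_mul_left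
          exact hNδ
      _ = (cc * Cst.toNat) * (K ^ (A * δ) * K ^ (A * δ)) := by ring
      _ < K * (K ^ (A * δ) * K ^ (A * δ)) := by
          apply Nat.mul_lt_mul_of_pos_right hccC
          positivity
      _ = K ^ (2 * (A * δ) + 1) := by rw [pow_succ, two_mul, pow_add]; ring
  have hlog : ∑ j : Pt R, (τ j : ℝ) * Real.log (dd K N j) < (2 * (A * δ) + 1) * Real.log K := by
    have h1 : Real.log ((∏ j : Pt R, dd K N j ^ (τ j : ℕ) : ℕ) : ℝ) <
        Real.log ((K ^ (2 * (A * δ) + 1) : ℕ) : ℝ) := by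
      apply Real.log_lt_log
      · have : 0 < ∏ j : Pt R, dd K N j ^ (τ j : ℕ) := prod_pos fun j _ => pow_pos (hdpos j) _
        exact_mod_cast this
      · exact_mod_cast hfin
    push_cast at h1
    rw [Real.log_pow, Real.log_prod (by
      intro j _
      have := hdpos j
      positivity)] at h1
    simp only [Real.log_pow] at h1
    push_cast at h1
    exact h1
  have hlast : ∑ j : Pt R, (τ j : ℝ) * w j < 2 * (A : ℝ) * δ + 1 := by
    have h1 : ∑ j : Pt R, (τ j : ℝ) * w j = (∑ j : Pt R, (τ j : ℝ) * Real.log (dd K N j)) /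
        Real.log K := by
      rw [sum_div]
      apply sum_congr rfl
      intro j _
      simp only [hw]
      ring
    rw [h1, div_lt_iff₀ hL]
    calc _ < _ := hlog
      _ = _ := by ring
  exact absurd (hnum.trans hlast) (lt_irrefl _)

end Pool.Agent.H108.St
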