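import Pool.Agent.H108.St.Taylor

/-!
# The choice of the multiplicities
-/

set_option autoImplicit false
open Finset Polynomial

namespace Pool.Agent.H108.St

theorem prod_dvd_of_gcd {ι : Type*} (s : Finset ι) (x : ι → ℕ) (M c : ℕ) (hx : ∀ j ∈ s, x j ∣ M)
    (hc : ∀ j ∈ s, ∀ j' ∈ s, j ≠ j' → Nat.gcd (x j) (x j') ∣ c) :
    ∏ j ∈ s, x j ∣ M * c ^ (s.card ^ 2) := by
  classical
  induction s using Finset.induction_on with
  | empty => simp
  | insert a s ha ih =>
    have h1 := ih (fun j hj => hx j (mem_insert_of_mem hj))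
      (fun j hj j' hj' hne => hc j (mem_insert_of_mem hj) j' (mem_insert_of_mem hj') hne)
    rw [prod_insert ha, card_insert_of_notMem ha, ← Nat.gcd_mul_lcm]
    have h2 : Nat.gcd (x a) (∏ j ∈ s, x j) ∣ c ^ s.card := by
      refine (dvd_prod_gcd s (x a) x).trans ?_
      rw [← prod_const]
      apply prod_dvd_prod_of_dvd
      intro j hj
      exact hc a (mem_insert_self _ _) j (mem_insert_of_mem hj) (by rintro rfl; exact ha hj)
    have h3 : Nat.lcm (x a) (∏ j ∈ s, x j) ∣ M * c ^ (s.card ^ 2) :=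
      Nat.lcm_dvd ((hx a (mem_insert_self _ _)).trans (dvd_mul_right _ _)) h1
    refine (Nat.mul_dvd_mul h2 h3).trans ?_
    have e : c ^ s.card * (M * c ^ (s.card ^ 2)) = M * c ^ (s.card + s.card ^ 2) := by
      rw [pow_add]; ring
    rw [e]
    exact Nat.mul_dvd_mul_left _ (pow_dvd_pow _ (by nlinarith))

/-- The number of the conditions. -/
def cond {J : Type} [Fintype J] (t : J → ℕ) : ℕ := ∑ j, ∑ s ∈ range (t j), (s + 1)

theorem two_mul_cond {J : Type} [Fintype J] (t : J → ℕ) :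
    2 * cond t = ∑ j, t j * (t j + 1) := by
  unfold cond
  rw [mul_sum]
  apply sum_congr rfl
  intro j _
  induction t j with
  | zero => simp
  | succ n ih =>
    rw [sum_range_succ, mul_add, ih]; ring

/-- The degree in the second variable. -/
def deg {J : Type} [Fintype J] (A : ℕ) (t : J → ℕ) : ℕ := Nat.sqrt (cond t / A) + 1

theorem cond_lt {J : Type} [Fintype J] (A : ℕ) (hA : 1 ≤ A) (t : J → ℕ) :
    cond t < (A * deg A t + 1) * (deg A t + 1) := by
  have h1 : cond t / A < deg A t * deg A t := Nat.lt_succ_sqrt _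
  have h2 := (Nat.div_lt_iff_lt_mul (by omega : 0 < A)).1 h1
  nlinarith

theorem numeric {J : Type} [Fintype J] (A P : ℕ) (hA : 1 ≤ A) (hP : Fintype.card J ≤ P)
    (w : J → ℝ) (hw0 : ∀ j, 0 ≤ w j) (hw2 : ∀ j, w j ≤ 2) (hW : 8 * (A : ℝ) ≤ ∑ j, w j ^ 2)
    (T : ℕ) (hT : T = 100 * (P + A + 1)) :
    2 * (A : ℝ) * deg A (fun j => ⌊T * w j⌋₊) + 1 < ∑ j, (⌊T * w j⌋₊ : ℝ) * w j := by
  set t : J → ℕ := fun j => ⌊T * w j⌋₊ with ht
  have hA' : (1 : ℝ) ≤ A := by exact_mod_cast hA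
  have hTr : (T : ℝ) = 100 * ((P : ℝ) + A + 1) := by rw [hT]; push_cast; ring
  have hP0 : (0 : ℝ) ≤ P := by positivity
  have hT0 : (0 : ℝ) < T := by rw [hTr]; positivity
  have hle : ∀ j, (t j : ℝ) ≤ T * w j := fun j => Nat.floor_le (mul_nonneg hT0.le (hw0 j))
  have hge : ∀ j, T * w j - 1 ≤ t j := fun j => (Nat.sub_one_lt_floor _).le
  set W := ∑ j, w j ^ 2 with hWdef
  have hsum : ∑ j, w j ≤ 2 * P := by
    calc ∑ j, w j ≤ ∑ _j : J, (2 : ℝ) := sum_le_sum fun j _ => hw2 j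
      _ = 2 * (Fintype.card J : ℝ) := by rw [sum_const, card_univ, nsmul_eq_mul]; ring
      _ ≤ 2 * P := by
          have : (Fintype.card J : ℝ) ≤ P := by exact_mod_cast hP
          linarith
  have hS : T * W - 2 * P ≤ ∑ j, (t j : ℝ) * w j := by
    have h1 : ∑ j, (T * w j - 1) * w j ≤ ∑ j, (t j : ℝ) * w j :=
      sum_le_sum fun j _ => mul_le_mul_of_nonneg_right (hge j) (hw0 j)
    have h2 : ∑ j, (T * w j - 1) * w j = T * W - ∑ j, w j := by
      rw [hWdef, mul_sum, ← sum_sub_distrib]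
      apply sum_congr rfl
      intro j _
      ring
    linarith
  have hs : 2 * (cond t : ℝ) ≤ T ^ 2 * W + 2 * T * P := by
    have h1 : 2 * (cond t : ℝ) = ∑ j, (t j : ℝ) * (t j + 1) := by
      have := two_mul_cond t
      exact_mod_cast this
    have h2 : ∑ j, (t j : ℝ) * (t j + 1) ≤ ∑ j, (T ^ 2 * w j ^ 2 + T * w j) := by
      apply sum_le_sum
      intro j _
      have h3 := hle j
      have h4 : (0 : ℝ) ≤ t j := by positivity
      nlinarith
    have h3 : ∑ j, (T ^ 2 * w j ^ 2 + T * w j) = T ^ 2 * W + T * ∑ j, w j := by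
      rw [sum_add_distrib, ← mul_sum, ← mul_sum]
    have h4 : T * ∑ j, w j ≤ T * (2 * P) := mul_le_mul_of_nonneg_left hsum hT0.le
    linarith
  set e := Nat.sqrt (cond t / A) with he
  have hde : (deg A t : ℝ) = e + 1 := by rw [he]; unfold deg; push_cast; ring
  have hAe : (A : ℝ) * (e : ℝ) ^ 2 ≤ cond t := by
    have h1 : e * e ≤ cond t / A := Nat.sqrt_le _
    have h2 : A * (e * e) ≤ cond t := by
      calc A * (e * e) ≤ A * (cond t / A) := Nat.mul_le_mul_left _ h1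
        _ ≤ cond t := Nat.mul_div_le _ _
    have h3 : ((A * (e * e) : ℕ) : ℝ) ≤ cond t := by exact_mod_cast h2
    push_cast at h3
    nlinarith
  by_contra hcon
  push Not at hcon
  rw [hde] at hcon
  have hWpos : 0 < W := by linarith
  have hW8 : 8 ≤ W := by linarith
  set Z := T * W - 2 * P - 2 * A - 1 with hZ
  have hZle : Z ≤ 2 * A * e := by
    rw [hZ]
    nlinarith
  have hsmall : 2 * (P : ℝ) + 2 * A + 1 ≤ T * W / 400 := by
    have : 8 * (T : ℝ) ≤ T * W := by nlinarith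
    rw [hTr] at this ⊢
    linarith
  have hTW : 0 < T * W := by positivity
  have hZge : T * W * (399 / 400) ≤ Z := by rw [hZ]; linarith
  have hZpos : 0 < Z := by linarith
  have h1 : Z ^ 2 ≤ (2 * A * e) ^ 2 := pow_le_pow_left₀ hZpos.le hZle 2
  have h2 : (2 * (A : ℝ) * e) ^ 2 ≤ 2 * A * (T ^ 2 * W + 2 * T * P) := by
    have h3 : (2 * (A : ℝ) * e) ^ 2 = 2 * A * (2 * (A * (e : ℝ) ^ 2)) := by ring
    rw [h3]
    apply mul_le_mul_of_nonneg_left _ (by positivity)
    linarith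
  have h3 : (T * W * (399 / 400)) ^ 2 ≤ Z ^ 2 := pow_le_pow_left₀ (by positivity) hZge 2
  have h4 : (P : ℝ) ≤ T / 100 := by rw [hTr]; linarith
  have h5 : 2 * (A : ℝ) * (T ^ 2 * W + 2 * T * P) ≤ 3 * A * (T ^ 2 * W) := by
    have h6 : 2 * (T : ℝ) * P ≤ T ^ 2 * W / 100 := by
      have : 2 * (T : ℝ) * P ≤ 2 * T * (T / 100) := by
        apply mul_le_mul_of_nonneg_left h4; positivity
      nlinarith [sq_nonneg (T : ℝ), mul_pos hT0 hT0]
    have h7 : 0 < (T : ℝ) ^ 2 * W := by positivity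
    calc 2 * (A : ℝ) * (T ^ 2 * W + 2 * T * P) ≤ 2 * (A : ℝ) * (T ^ 2 * W + T ^ 2 * W / 100) :=
          mul_le_mul_of_nonneg_left (by linarith) (by positivity)
      _ = (3 * A * (T ^ 2 * W)) * (202 / 300) := by ring
      _ ≤ (3 * A * (T ^ 2 * W)) * 1 := mul_le_mul_of_nonneg_left (by norm_num) (by positivity)
      _ = 3 * A * (T ^ 2 * W) := by ring
  have h6 : 3 * (A : ℝ) * (T ^ 2 * W) < (T * W * (399 / 400)) ^ 2 := by
    have h7 : (T * W * (399 / 400)) ^ 2 = (T ^ 2 * W) * W * (399 / 400) ^ 2 := by ring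
    rw [h7]
    have h8 : 0 < (T : ℝ) ^ 2 * W := by positivity
    have h9 : 3 * (A : ℝ) < W * (399 / 400) ^ 2 := by
      have : 8 * (A : ℝ) * (399 / 400) ^ 2 ≤ W * (399 / 400) ^ 2 :=
        mul_le_mul_of_nonneg_right hW (by norm_num)
      refine lt_of_lt_of_le ?_ this
      norm_num
      linarith
    calc 3 * (A : ℝ) * (T ^ 2 * W) = (T ^ 2 * W) * (3 * A) := by ring
      _ < (T ^ 2 * W) * (W * (399 / 400) ^ 2) := mul_lt_mul_of_pos_left h9 h8
      _ = T ^ 2 * W * W * (399 / 400) ^ 2 := by ring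
  linarith

end Pool.Agent.H108.St
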