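import Pool.Agent.H108.St.Basic

/-!
# Auxiliary polynomials which vanish at given points to given orders
-/

set_option autoImplicit false
open Finset Polynomial

namespace Pool.Agent.H108.St

/-- The value at `(x, y)` of the polynomial with the coefficients `f`. -/
def val {a b : ℕ} (f : Fin (a + 1) × Fin (b + 1) → ℤ) (x y : ℤ) : ℤ :=
  ∑ e, f e * x ^ (e.1 : ℕ) * y ^ (e.2 : ℕ)

/-- The polynomial with the coefficients `f`. -/
noncomputable def pol {a b : ℕ} (f : Fin (a + 1) × Fin (b + 1) → ℤ) : ℤ[X][X] :=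
  ∑ e, C (C (f e) * X ^ (e.1 : ℕ)) * X ^ (e.2 : ℕ)

theorem evalEval_pol {a b : ℕ} (f : Fin (a + 1) × Fin (b + 1) → ℤ) (x y : ℤ) :
    (pol f).evalEval x y = val f x y := by
  unfold pol val evalEval
  simp [eval_finsetSum]

theorem pol_ne_zero {a b : ℕ} (f : Fin (a + 1) × Fin (b + 1) → ℤ) (hf : f ≠ 0) : pol f ≠ 0 := by
  intro h0
  apply hf
  funext e
  have h1 : ((pol f).coeff (e.2 : ℕ)).coeff (e.1 : ℕ) = f e := by
    unfold pol
    rw [finsetSum_coeff, finsetSum_coeff, Finset.sum_eq_single e]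
    · rw [coeff_C_mul, coeff_X_pow, if_pos rfl, mul_one, coeff_C_mul, coeff_X_pow, if_pos rfl,
        mul_one]
    · intro e' _ hne
      simp only [coeff_C_mul, coeff_X_pow]
      by_cases h2 : (e.2 : ℕ) = e'.2
      · rw [if_pos h2, mul_one, coeff_C_mul, coeff_X_pow]
        have h3 : (e.1 : ℕ) ≠ e'.1 := by
          intro h3
          apply hne
          exact Prod.ext (Fin.ext h3.symm) (Fin.ext h2.symm)
        rw [if_neg h3, mul_zero]
      · rw [if_neg h2, mul_zero, coeff_zero]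
    · intro h; exact absurd (mem_univ _) h
  rw [h0] at h1
  simpa using h1.symm

theorem pow_expand (a m : ℕ) (h : m ≤ a) (l u : ℤ) :
    (u + l) ^ m = ∑ α ∈ range (a + 1), u ^ α * l ^ (m - α) * (m.choose α : ℤ) := by
  rw [add_pow]
  apply Finset.sum_subset (range_subset_range.2 (by omega))
  intro α _ hα
  rw [mem_range] at hα
  rw [Nat.choose_eq_zero_of_lt (by omega)]
  simp

/-- The Taylor coefficients. -/
def tay {a b : ℕ} (f : Fin (a + 1) × Fin (b + 1) → ℤ) (l i : ℤ) (α β : ℕ) : ℤ :=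
  ∑ e, (l ^ ((e.1 : ℕ) - α) * ((e.1 : ℕ).choose α : ℤ) * (i ^ ((e.2 : ℕ) - β) *
    ((e.2 : ℕ).choose β : ℤ))) * f e

theorem val_tay {a b : ℕ} (f : Fin (a + 1) × Fin (b + 1) → ℤ) (l i u v : ℤ) :
    val f (u + l) (v + i) =
      ∑ α ∈ range (a + 1), ∑ β ∈ range (b + 1), tay f l i α β * (u ^ α * v ^ β) := by
  unfold val tay
  have h1 : ∀ e : Fin (a + 1) × Fin (b + 1), f e * (u + l) ^ (e.1 : ℕ) * (v + i) ^ (e.2 : ℕ) =
      ∑ α ∈ range (a + 1), ∑ β ∈ range (b + 1), (l ^ ((e.1 : ℕ) - α) * ((e.1 : ℕ).choose α : ℤ) *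
        (i ^ ((e.2 : ℕ) - β) * ((e.2 : ℕ).choose β : ℤ))) * f e * (u ^ α * v ^ β) := by
    intro e
    rw [pow_expand a e.1 (Nat.lt_succ_iff.1 e.1.2), pow_expand b e.2 (Nat.lt_succ_iff.1 e.2.2),
      mul_assoc, Finset.sum_mul_sum, Finset.mul_sum]
    apply Finset.sum_congr rfl
    intro α _
    rw [Finset.mul_sum]
    apply Finset.sum_congr rfl
    intro β _
    ring
  rw [Finset.sum_congr rfl fun e _ => h1 e, Finset.sum_comm]
  apply Finset.sum_congr rfl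
  intro α _
  rw [Finset.sum_comm]
  apply Finset.sum_congr rfl
  intro β _
  rw [Finset.sum_mul]

theorem pow_dvd_val {a b : ℕ} (f : Fin (a + 1) × Fin (b + 1) → ℤ) (l i : ℤ) (t : ℕ)
    (h : ∀ α β : ℕ, α + β < t → tay f l i α β = 0) (x y d : ℤ) (hx : d ∣ x - l) (hy : d ∣ y - i) :
    d ^ t ∣ val f x y := by
  have h1 := val_tay f l i (x - l) (y - i)
  rw [sub_add_cancel, sub_add_cancel] at h1
  rw [h1]
  apply Finset.dvd_sum
  intro α _
  apply Finset.dvd_sum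
  intro β _
  by_cases hαβ : α + β < t
  · rw [h α β hαβ, zero_mul]; exact dvd_zero _
  · apply Dvd.dvd.mul_left
    exact (pow_dvd_pow d (not_lt.1 hαβ)).trans (by
      rw [pow_add]; exact mul_dvd_mul (pow_dvd_pow_of_dvd hx _) (pow_dvd_pow_of_dvd hy _))

/-- **Auxiliary polynomials.** -/
theorem exists_aux {J : Type} [Fintype J] (l i : J → ℤ) (t : J → ℕ) (a b : ℕ)
    (h : ∑ j, ∑ s ∈ range (t j), (s + 1) < (a + 1) * (b + 1)) :
    ∃ f : Fin (a + 1) × Fin (b + 1) → ℤ, f ≠ 0 ∧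
      ∀ j, ∀ x y d : ℤ, d ∣ x - l j → d ∣ y - i j → d ^ t j ∣ val f x y := by
  classical
  let Row := Σ j : J, Σ s : Fin (t j), Fin (s + 1)
  have hcard : Fintype.card Row = ∑ j, ∑ s ∈ range (t j), (s + 1) := by
    simp only [Row, Fintype.card_sigma, Fintype.card_fin]
    apply Finset.sum_congr rfl
    intro j _
    exact Fin.sum_univ_eq_sum_range (fun s => s + 1) (t j)
  rcases Nat.eq_zero_or_pos (Fintype.card Row) with h0 | h0
  · refine ⟨Pi.single 0 1, by simp, ?_⟩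
    intro j x y d _ _
    have h1 : t j = 0 := by
      by_contra hne
      have : IsEmpty Row := Fintype.card_eq_zero_iff.1 h0
      exact this.elim ⟨j, ⟨0, Nat.pos_of_ne_zero hne⟩, 0⟩
    rw [h1, pow_zero]
    exact one_dvd _
  let A : Matrix Row (Fin (a + 1) × Fin (b + 1)) ℤ := fun ρ e =>
    l ρ.1 ^ ((e.1 : ℕ) - (ρ.2.2 : ℕ)) * ((e.1 : ℕ).choose (ρ.2.2 : ℕ) : ℤ) *
      (i ρ.1 ^ ((e.2 : ℕ) - ((ρ.2.1 : ℕ) - (ρ.2.2 : ℕ))) *
        ((e.2 : ℕ).choose ((ρ.2.1 : ℕ) - (ρ.2.2 : ℕ)) : ℤ))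
  obtain ⟨f, hf0, hf, -⟩ := Int.Matrix.exists_ne_zero_int_vec_norm_le A (by
    rw [hcard, Fintype.card_prod, Fintype.card_fin, Fintype.card_fin]; exact h) h0
  refine ⟨f, hf0, ?_⟩
  intro j x y d hx hy
  apply pow_dvd_val f (l j) (i j) (t j) _ x y d hx hy
  intro α β hαβ
  have h1 := congrFun hf ⟨j, ⟨α + β, hαβ⟩, ⟨α, by simp⟩⟩
  simp only [Matrix.mulVec, dotProduct, A, Pi.zero_apply] at h1
  rw [← h1]
  unfold tay
  apply Finset.sum_congr rfl
  intro e _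
  simp

theorem abs_val_le {a b : ℕ} (f : Fin (a + 1) × Fin (b + 1) → ℤ) (x y : ℤ) (hx : 1 ≤ |x|)
    (hy : 1 ≤ |y|) : |val f x y| ≤ (∑ e, |f e|) * (|x| ^ a * |y| ^ b) := by
  unfold val
  refine (Finset.abs_sum_le_sum_abs _ _).trans ?_
  rw [Finset.sum_mul]
  apply Finset.sum_le_sum
  intro e _
  rw [abs_mul, abs_mul, abs_pow, abs_pow, mul_assoc]
  apply mul_le_mul_of_nonneg_left _ (abs_nonneg _)
  exact mul_le_mul (pow_le_pow_right₀ hx (Nat.lt_succ_iff.1 e.1.2))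
    (pow_le_pow_right₀ hy (Nat.lt_succ_iff.1 e.2.2)) (by positivity) (by positivity)

end Pool.Agent.H108.St
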